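import Pool.Agent.H69.ColE.Asym
import Pool.Agent.H69.ColO.Asym
import Pool.Agent.H69.ColO.StepLimit

/-!
# The growth of `t_*(r)` is a question about systems on `c r k` points

`turanDensity k r` is the limit `t(k,r)` of `T(n,k,r) / C(n,r)`,
`rescaled k r = (k-1)^(r-1) / r! * t(k,r)` is `t_*(k,r)` and `tStar r` is its limit `t_*(r)` for
`k → ∞`.  For a finite system the corresponding quantity is
`cost N k r = (k-1)^(r-1) T(N,k,r) / N^r`.

For `N ≤ l (k-1)` with a constant `l` there are systems of bounded cost for all `r`.  We show that,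
for any fixed `c > 0`, the least cost of the systems with `N ≥ 2k` and `N ≥ c r (k-1)` points is equal
to `t_*(r)` up to a factor which does not depend on `r`.  So the sequence `t_*(r)` is bounded if and
only if for one (equivalently, for every) `c > 0` there are such systems of bounded cost.  Moreover
`t_*(r+1) < e t_*(r)`, so that it is enough to have such systems for the `r` of a set with bounded
gaps.
-/

set_option autoImplicit false

open Finset Filter Topology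

namespace Pool.Agent.Results.MP_ea5d3c_co.FiniteCriterion

open Pool.Agent.H688R3.TuranGen (c exists_cov c_le_card tendsto_c exists_limit)

/-- `E` is a family of `r`-sets and every `k`-set of vertices contains a member of `E`: the
`r`-graph `E` has independence number less than `k`. -/
def Covers {V : Type} (k r : ℕ) (E : Finset (Finset V)) : Prop :=
  (∀ e ∈ E, e.card = r) ∧ ∀ S : Finset V, S.card = k → ∃ e ∈ E, e ⊆ S

/-- The Turán number `T(n,k,r)`. -/
noncomputable def turanNumber (n k r : ℕ) : ℕ :=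
  sInf {m | ∃ E : Finset (Finset (Fin n)), Covers k r E ∧ E.card = m}

/-- The Turán density `t(k,r)`, the limit of `T(n,k,r) / C(n,r)`. -/
noncomputable def turanDensity (k r : ℕ) : ℝ :=
  limUnder atTop fun n : ℕ => (turanNumber n k r : ℝ) / (n.choose r : ℝ)

/-- The rescaled Turán density `t_*(k,r) = (k-1)^(r-1) / r! * t(k,r)`. -/
noncomputable def rescaled (k r : ℕ) : ℝ :=
  ((k : ℝ) - 1) ^ (r - 1) / (r.factorial : ℝ) * turanDensity k r

/-- The limit `t_*(r)` of `t_*(k,r)` for `k → ∞`. -/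
noncomputable def tStar (r : ℕ) : ℝ := limUnder atTop fun k : ℕ => rescaled k r

/-- The rescaled Turán number `(k-1)^(r-1) T(N,k,r) / N^r` of a finite system. -/
noncomputable def cost (N k r : ℕ) : ℝ :=
  ((k : ℝ) - 1) ^ (r - 1) * (turanNumber N k r : ℝ) / (N : ℝ) ^ r

/-- The systems on `N` points for `k` are considered: `k > r`, `N ≥ 2 k` and `N ≥ c r (k - 1)`. -/
def Admissible (c : ℝ) (r N k : ℕ) : Prop :=
  r < k ∧ 2 * k ≤ N ∧ c * (r : ℝ) * ((k : ℝ) - 1) ≤ N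

/-- The infimum of the costs of the systems with `N ≥ 2 k` and `N ≥ c r (k - 1)`. -/
noncomputable def minCost (c : ℝ) (r : ℕ) : ℝ :=
  sInf {x | ∃ N k : ℕ, Admissible c r N k ∧ cost N k r = x}

theorem turanNumber_eq {n k r : ℕ} (hk : r ≤ k) : (turanNumber n k r : ℝ) = c r k n := by
  obtain ⟨F, hF, hFc⟩ := exists_cov hk n
  have hmem : F.card ∈ {m : ℕ | ∃ F : Finset (Finset (Fin n)), Covers k r F ∧ F.card = m} :=
    ⟨F, hF, rfl⟩
  apply le_antisymm
  · rw [← hFc]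
    exact_mod_cast Nat.sInf_le hmem
  · obtain ⟨G, hG, hGc⟩ := Nat.sInf_mem ⟨_, hmem⟩
    have h1 : turanNumber n k r = G.card := hGc.symm
    rw [h1]
    exact c_le_card hG

theorem turanNumber_le {n k r : ℕ} {F : Finset (Finset (Fin n))} (hF : Covers k r F) :
    turanNumber n k r ≤ F.card := Nat.sInf_le ⟨F, hF, rfl⟩

theorem exists_system {n k r : ℕ} (hk : r ≤ k) :
    ∃ F : Finset (Finset (Fin n)), Covers k r F ∧ (F.card : ℝ) = turanNumber n k r := by
  obtain ⟨F, hF, hFc⟩ := exists_cov hk n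
  exact ⟨F, hF, by rw [turanNumber_eq hk, hFc]⟩

theorem tendsto_turanNumber {k r : ℕ} (hk : r ≤ k) :
    Tendsto (fun n : ℕ => (turanNumber n k r : ℝ) / (n.choose r : ℝ)) atTop
      (𝓝 (Pool.Agent.H688R3.TuranGen.t r k)) := by
  refine (tendsto_c r k).congr fun n => ?_
  rw [turanNumber_eq hk]

theorem turanDensity_eq {k r : ℕ} (hk : r ≤ k) :
    turanDensity k r = Pool.Agent.H688R3.TuranGen.t r k :=
  (tendsto_turanNumber hk).limUnder_eq

theorem exists_tStar {r : ℕ} (hr : 3 ≤ r) :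
    Tendsto (fun k : ℕ => rescaled k r) atTop (𝓝 (tStar r)) ∧
      ∀ k : ℕ, r ≤ k → tStar r ≤ rescaled k r := by
  obtain ⟨s, rfl⟩ : ∃ s, r = s + 1 := ⟨r - 1, by omega⟩
  obtain ⟨L, h1, h2, h3⟩ := exists_limit (s := s) (by omega)
  have hf : (0 : ℝ) < ((s + 1).factorial : ℝ) := by positivity
  have h4 : Tendsto (fun k : ℕ => rescaled k (s + 1)) atTop (𝓝 (L / ((s + 1).factorial : ℝ))) := by
    have h5 := h2.div_const ((s + 1).factorial : ℝ)
    refine h5.congr' ?_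
    filter_upwards [eventually_ge_atTop (s + 1)] with k hk
    unfold rescaled
    rw [turanDensity_eq hk, Nat.add_sub_cancel]
    ring
  have h5 : tStar (s + 1) = L / ((s + 1).factorial : ℝ) := h4.limUnder_eq
  rw [h5]
  refine ⟨h4, fun k hk => ?_⟩
  unfold rescaled
  rw [turanDensity_eq hk, Nat.add_sub_cancel, div_le_iff₀ hf]
  refine (h3 k hk).trans (le_of_eq ?_)
  field_simp

/-- `r! t_*(r)` is at most `(k-1)^(r-1) t(k,r)` -/
theorem fac_tStar_le {r : ℕ} (hr : 3 ≤ r) (k : ℕ) (hk : r ≤ k) :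
    (r.factorial : ℝ) * tStar r ≤ ((k : ℝ) - 1) ^ (r - 1) * Pool.Agent.H688R3.TuranGen.t r k := by
  have h := (exists_tStar hr).2 k hk
  have hf : (0 : ℝ) < (r.factorial : ℝ) := by exact_mod_cast r.factorial_pos
  unfold rescaled at h
  rw [turanDensity_eq hk] at h
  have h1 := mul_le_mul_of_nonneg_left h hf.le
  refine h1.trans (le_of_eq ?_)
  field_simp

/-- powers and the exponential function -/
theorem pow_le {y : ℝ} (hy : 0 < y) {m : ℕ} {x : ℝ} (h : (m : ℝ) / y ≤ x) :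
    (1 + 1 / y) ^ m ≤ Real.exp x := by
  have h1 : (1 + 1 / y) ≤ Real.exp (1 / y) := by
    have := Real.add_one_le_exp (1 / y)
    linarith
  calc (1 + 1 / y) ^ m ≤ Real.exp (1 / y) ^ m := pow_le_pow_left₀ (by positivity) h1 _
    _ = Real.exp ((m : ℝ) / y) := by
        rw [← Real.exp_nat_mul]
        congr 1
        ring
    _ ≤ _ := Real.exp_le_exp.2 h

/-- the cost of a system is the one of an optimal family -/
theorem cost_eq {N k r : ℕ} {F : Finset (Finset (Fin N))} {a : ℕ} (ha : k = a + 1)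
    (hF : (F.card : ℝ) = turanNumber N k r) :
    cost N k r = (a : ℝ) ^ (r - 1) * (F.card : ℝ) / (N : ℝ) ^ r := by
  unfold cost
  rw [hF, ha]
  push_cast
  rw [add_sub_cancel_right]

theorem cost_nonneg {N k r : ℕ} (hk : 1 ≤ k) : 0 ≤ cost N k r := by
  unfold cost
  have : (0 : ℝ) ≤ (k : ℝ) - 1 := by
    have : (1 : ℝ) ≤ k := by exact_mod_cast hk
    linarith
  positivity

/-- even uniformities -/
theorem even_bound {s : ℕ} (hs : 2 ≤ s) {c κ : ℝ} (hc : 0 < c) (hκ : 1 ≤ κ) {N k : ℕ}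
    (hk : 2 * s < k) (hN : c * ((2 * s : ℕ) : ℝ) * ((k : ℝ) - 1) ≤ N) :
    tStar (2 * s) ≤ Real.exp (Real.exp 1 * κ / c) * (cost N k (2 * s) +
      (1 / κ) ^ ((2 * s - 1) / 2) * (1 + 3 * Real.exp 1 * κ / (2 * c * ((2 * s : ℕ) : ℝ)) +
        Real.exp 1 * κ / (2 * c ^ 2 * ((2 * s : ℕ) : ℝ) ^ 2))) := by
  obtain ⟨a, rfl⟩ : ∃ a, k = a + 1 := ⟨k - 1, by omega⟩
  have he : (0 : ℝ) < Real.exp 1 := Real.exp_pos 1
  have κ0 : 0 < κ := by linarith
  have hs0 : (0 : ℝ) < s := by exact_mod_cast (show 0 < s by omega)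
  have hs2 : (2 : ℝ) ≤ s := by exact_mod_cast hs
  have ha0 : (0 : ℝ) < a := by exact_mod_cast (show 0 < a by omega)
  push_cast at hN
  rw [add_sub_cancel_right] at hN
  have hN0 : (0 : ℝ) < N := lt_of_lt_of_le (by positivity) hN
  have hN0' : 0 < N := by exact_mod_cast hN0
  have hf : (0 : ℝ) < ((2 * s).factorial : ℝ) := by exact_mod_cast (2 * s).factorial_pos
  obtain ⟨F, ⟨hF1, hF2⟩, hFc⟩ := exists_system (n := N) (k := a + 1) (r := 2 * s) (by omega)
  set y : ℝ := 4 * c * s / (Real.exp 1 * κ) with hy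
  have y0 : 0 < y := by positivity
  have hL := fac_tStar_le (r := 2 * s) (by omega)
  have h := Pool.Agent.H69.ColE.base_bound hs hL hN0' (a := a) (by omega) F hF1 hF2 y0
  set l : ℝ := (N : ℝ) / a with hl
  have hl0 : 0 < l := by positivity
  have hly : Real.exp 1 * y / 2 ≤ l / κ := by
    rw [le_div_iff₀ κ0, hl, le_div_iff₀ ha0, hy]
    refine le_trans (le_of_eq ?_) hN
    field_simp
    ring
  have h3 := Pool.Agent.H69.ColE.third (s := s) (by omega) y0 hly
  have hfs : (0 : ℝ) < (s.factorial : ℝ) := by exact_mod_cast s.factorial_pos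
  have e1 : ((2 * s).factorial : ℝ) / (2 ^ s * (s.factorial : ℝ)) * ((a : ℝ) / N) ^ s *
      (((s : ℝ) - 1) * y) ^ (s - 1) = ((2 * s).factorial : ℝ) * ((1 / κ) ^ s *
        ((((s : ℝ) - 1) * y) ^ (s - 1) / (2 ^ s * (s.factorial : ℝ) * (l / κ) ^ s))) := by
    have hal : (a : ℝ) / N = 1 / l := by
      rw [hl]
      field_simp
    have hlk : (1 / l) ^ s = (1 / κ) ^ s * (1 / (l / κ) ^ s) := by
      rw [← one_div_pow (l / κ), ← mul_pow]
      congr 1
      field_simp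
    rw [hal, hlk]
    ring
  have e2 : (a : ℝ) ^ (2 * s - 1) * (((2 * s).factorial : ℝ) * (F.card : ℝ)) / (N : ℝ) ^ (2 * s) =
      ((2 * s).factorial : ℝ) * cost N (a + 1) (2 * s) := by
    rw [cost_eq rfl hFc]
    ring
  rw [e1, e2, ← mul_add, mul_left_comm] at h
  have h4 := le_of_mul_le_mul_left h hf
  have hcost := cost_nonneg (N := N) (k := a + 1) (r := 2 * s) (by omega)
  have h5 : (1 + 1 / y) ^ (2 * s - 1) ≤ Real.exp (Real.exp 1 * κ / c) := by
    refine pow_le y0 ?_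
    have hm : ((2 * s - 1 : ℕ) : ℝ) ≤ 2 * s := by
      exact_mod_cast (show 2 * s - 1 ≤ 2 * s by omega)
    rw [div_le_iff₀ y0, hy]
    refine hm.trans ?_
    have : Real.exp 1 * κ / c * (4 * c * s / (Real.exp 1 * κ)) = 4 * s := by field_simp
    rw [this]
    linarith
  have h6 : 1 / ((s : ℝ) * y) ≤ 3 * Real.exp 1 * κ / (2 * c * ((2 * s : ℕ) : ℝ)) := by
    rw [hy]
    push_cast
    have e3 : 1 / ((s : ℝ) * (4 * c * s / (Real.exp 1 * κ))) =
        1 * (Real.exp 1 * κ) / (4 * c * s ^ 2) := by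
      field_simp
    have e4 : 3 * Real.exp 1 * κ / (2 * c * (2 * (s : ℝ))) =
        3 * s * (Real.exp 1 * κ) / (4 * c * s ^ 2) := by
      field_simp
      ring
    rw [e3, e4]
    refine div_le_div_of_nonneg_right ?_ (by positivity)
    exact mul_le_mul_of_nonneg_right (by linarith) (by positivity)
  have h7 : (0 : ℝ) ≤ Real.exp 1 * κ / (2 * c ^ 2 * ((2 * s : ℕ) : ℝ) ^ 2) := by positivity
  have hκ1 : (1 / κ) ^ s ≤ (1 / κ) ^ ((2 * s - 1) / 2) :=
    pow_le_pow_of_le_one (by positivity) (by rw [div_le_one κ0]; exact hκ) (by omega)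
  have hκ2 : (0 : ℝ) < (1 / κ) ^ s := by positivity
  have h8 : (0 : ℝ) ≤ (((s : ℝ) - 1) * y) ^ (s - 1) /
      (2 ^ s * (s.factorial : ℝ) * (l / κ) ^ s) := by
    have : (0 : ℝ) ≤ (s : ℝ) - 1 := by linarith
    positivity
  refine h4.trans (mul_le_mul h5 ?_ ?_ (Real.exp_pos _).le)
  · refine add_le_add_right (mul_le_mul hκ1 ?_ h8 (by positivity)) _
    linarith
  · exact add_nonneg hcost (mul_nonneg hκ2.le h8)

/-- odd uniformities -/
theorem odd_bound {q : ℕ} {c κ : ℝ} (hc : 0 < c) (hκ : 1 ≤ κ) {N k : ℕ} (hk : 2 * q + 3 < k)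
    (hN : c * ((2 * q + 3 : ℕ) : ℝ) * ((k : ℝ) - 1) ≤ N) :
    tStar (2 * q + 3) ≤ Real.exp (Real.exp 1 * κ / c) * (cost N k (2 * q + 3) +
      (1 / κ) ^ ((2 * q + 3 - 1) / 2) * (1 + 3 * Real.exp 1 * κ /
        (2 * c * ((2 * q + 3 : ℕ) : ℝ)) +
        Real.exp 1 * κ / (2 * c ^ 2 * ((2 * q + 3 : ℕ) : ℝ) ^ 2))) := by
  obtain ⟨a, rfl⟩ : ∃ a, k = a + 1 := ⟨k - 1, by omega⟩
  have he : (0 : ℝ) < Real.exp 1 := Real.exp_pos 1
  have κ0 : 0 < κ := by linarith
  have hex : (2 * q + 3 - 1) / 2 = q + 1 := by omega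
  rw [hex]
  set r : ℕ := 2 * q + 3 with hr
  have hr0 : (0 : ℝ) < (r : ℝ) := by exact_mod_cast (show 0 < r by omega)
  have ha0 : (0 : ℝ) < a := by exact_mod_cast (show 0 < a by omega)
  push_cast at hN
  rw [add_sub_cancel_right] at hN
  have hN0 : (0 : ℝ) < N := lt_of_lt_of_le (by positivity) hN
  have hN0' : 0 < N := by exact_mod_cast hN0
  have hf : (0 : ℝ) < (r.factorial : ℝ) := by exact_mod_cast r.factorial_pos
  obtain ⟨F, ⟨hF1, hF2⟩, hFc⟩ := exists_system (n := N) (k := a + 1) (r := r) (by omega)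
  set y : ℝ := 2 * c * r / (Real.exp 1 * κ) with hy
  have y0 : 0 < y := by positivity
  set z : ℝ := y + 3 with hz
  have z0 : 0 < z := by positivity
  have hL := fac_tStar_le (r := r) (by omega)
  have h := Pool.Agent.H69.ColO.group_bound (r := q) hL hN0' (a := a) (by omega) F hF1 hF2 y0
    (z := z) (by linarith)
  set l : ℝ := (N : ℝ) / a with hl
  have hly : κ * (Real.exp 1 * y / 2) ≤ l := by
    rw [hl, le_div_iff₀ ha0, hy]
    refine le_trans (le_of_eq ?_) hN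
    field_simp
  have hl0 : 0 < l := by positivity
  have h3 := Pool.Agent.H69.ColO.third (r := q) (l := l) (q := κ) κ0 y0 z0 hly
  have hal : (a : ℝ) / N = 1 / l := by
    rw [hl]
    field_simp
  have hNz : (N : ℝ) * z / a = l * z := by
    rw [hl]
    ring
  set P : ℝ := (1 + 1 / y) ^ (2 * q + 2) with hP
  set Q : ℝ := (1 + 1 / z) ^ (2 * q + 2) with hQ
  have hQ1 : (1 + 1 / z) ^ (q + 2) ≤ Q := pow_le_pow_right₀ (by
    have : 0 < 1 / z := by positivity
    linarith) (by omega)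
  have hQ0 : 0 < Q := by positivity
  have hP0 : 0 < P := by positivity
  have e1 : (r.factorial : ℝ) / (2 ^ (q + 1) * (q.factorial : ℝ)) * (l * z + 1) *
      ((1 + 1 / z) * (1 / l)) ^ (q + 2) * (((q : ℝ) + 1) * y) ^ q = (r.factorial : ℝ) *
        ((1 + 1 / z) ^ (q + 2) * (1 / (2 ^ (q + 1) * (q.factorial : ℝ)) * (l * z + 1) *
          (1 / l) ^ (q + 2) * (((q : ℝ) + 1) * y) ^ q)) := by
    rw [mul_pow]
    ring
  have e2 : Q * ((a : ℝ) ^ (2 * q + 2) * (((2 * q + 3).factorial : ℝ) * (F.card : ℝ)) /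
      (N : ℝ) ^ (2 * q + 3)) = (r.factorial : ℝ) * (Q * cost N (a + 1) r) := by
    rw [cost_eq rfl hFc]
    have : r - 1 = 2 * q + 2 := by omega
    rw [this, hr]
    ring
  rw [hNz, hal, e1, e2, ← mul_add, mul_left_comm] at h
  have h4 := le_of_mul_le_mul_left h hf
  have hcost := cost_nonneg (N := N) (k := a + 1) (r := r) (by omega)
  have h5 : P * Q ≤ Real.exp (Real.exp 1 * κ / c) := by
    have a1 : Q ≤ P := by
      refine pow_le_pow_left₀ (by positivity) ?_ _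
      have : 1 / z ≤ 1 / y := one_div_le_one_div_of_le y0 (by linarith)
      linarith
    have a2 : P * P = (1 + 1 / y) ^ (2 * (2 * q + 2)) := by
      rw [hP]
      ring
    calc P * Q ≤ P * P := mul_le_mul_of_nonneg_left a1 hP0.le
      _ = (1 + 1 / y) ^ (2 * (2 * q + 2)) := a2
      _ ≤ _ := by
        refine pow_le y0 ?_
        have hm : ((2 * (2 * q + 2) : ℕ) : ℝ) ≤ 2 * r := by
          exact_mod_cast (show 2 * (2 * q + 2) ≤ 2 * r by omega)
        rw [div_le_iff₀ y0, hy]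
        refine hm.trans (le_of_eq ?_)
        field_simp
  have h6 : z / y + 1 / (l * y) ≤ 1 + 3 * Real.exp 1 * κ / (2 * c * (r : ℝ)) +
      Real.exp 1 * κ / (2 * c ^ 2 * (r : ℝ) ^ 2) := by
    have a1 : z / y = 1 + 3 * Real.exp 1 * κ / (2 * c * (r : ℝ)) := by
      rw [hz, hy]
      field_simp
    have a2 : 1 / (l * y) ≤ Real.exp 1 * κ / (2 * c ^ 2 * (r : ℝ) ^ 2) := by
      have a3 : κ * (Real.exp 1 * y / 2) * y ≤ l * y := mul_le_mul_of_nonneg_right hly y0.le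
      have a4 : 1 / (l * y) ≤ 1 / (κ * (Real.exp 1 * y / 2) * y) :=
        one_div_le_one_div_of_le (by positivity) a3
      refine a4.trans (le_of_eq ?_)
      rw [hy]
      field_simp
    linarith
  set T : ℝ := 1 / (2 ^ (q + 1) * (q.factorial : ℝ)) * (l * z + 1) *
          (1 / l) ^ (q + 2) * (((q : ℝ) + 1) * y) ^ q with hT
  have hT0 : 0 ≤ T := by positivity
  have h7 : T ≤ (1 / κ) ^ (q + 1) * (1 + 3 * Real.exp 1 * κ / (2 * c * (r : ℝ)) +
      Real.exp 1 * κ / (2 * c ^ 2 * (r : ℝ) ^ 2)) := by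
    refine h3.trans ?_
    rw [mul_comm]
    exact mul_le_mul_of_nonneg_left h6 (by positivity)
  calc tStar r ≤ P * (Q * cost N (a + 1) r + (1 + 1 / z) ^ (q + 2) * T) := h4
    _ ≤ P * (Q * cost N (a + 1) r + Q * T) := by
        refine mul_le_mul_of_nonneg_left ?_ hP0.le
        have := mul_le_mul_of_nonneg_right hQ1 hT0
        linarith
    _ = P * Q * (cost N (a + 1) r + T) := by ring
    _ ≤ Real.exp (Real.exp 1 * κ / c) * (cost N (a + 1) r + T) :=
        mul_le_mul_of_nonneg_right h5 (by linarith)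
    _ ≤ _ := by
        refine mul_le_mul_of_nonneg_left ?_ (Real.exp_pos _).le
        linarith

/-- the bound of `t_*(r)` by a system with at least `c r (k-1)` points -/
theorem bound {r : ℕ} (hr : 3 ≤ r) {c κ : ℝ} (hc : 0 < c) (hκ : 1 ≤ κ) {N k : ℕ} (hk : r < k)
    (hN : c * (r : ℝ) * ((k : ℝ) - 1) ≤ N) :
    tStar r ≤ Real.exp (Real.exp 1 * κ / c) * (cost N k r + (1 / κ) ^ ((r - 1) / 2) *
      (1 + 3 * Real.exp 1 * κ / (2 * c * r) + Real.exp 1 * κ / (2 * c ^ 2 * r ^ 2))) := by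
  rcases Nat.even_or_odd' r with ⟨s, rfl | rfl⟩
  · exact even_bound (by omega) hc hκ hk hN
  · obtain ⟨q, rfl⟩ : ∃ q, s = q + 1 := ⟨s - 1, by omega⟩
    have e : 2 * (q + 1) + 1 = 2 * q + 3 := by ring
    rw [e] at hk hN ⊢
    exact odd_bound hc hκ hk hN

/-- de Caen's bound for `t_*(r)` -/
theorem one_div_le_tStar {r : ℕ} (hr : 3 ≤ r) : 1 / (r : ℝ) ≤ tStar r := by
  obtain ⟨s, rfl⟩ : ∃ s, r = s + 1 := ⟨r - 1, by omega⟩
  obtain ⟨L, h1, h2, h3⟩ := exists_limit (s := s) (by omega)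
  have hf : (0 : ℝ) < ((s + 1).factorial : ℝ) := by positivity
  have hfs : (0 : ℝ) < (s.factorial : ℝ) := by positivity
  have h4 : Tendsto (fun k : ℕ => rescaled k (s + 1)) atTop (𝓝 (L / ((s + 1).factorial : ℝ))) := by
    have h5 := h2.div_const ((s + 1).factorial : ℝ)
    refine h5.congr' ?_
    filter_upwards [eventually_ge_atTop (s + 1)] with k hk
    unfold rescaled
    rw [turanDensity_eq hk, Nat.add_sub_cancel]
    ring
  have h5 : tStar (s + 1) = L / ((s + 1).factorial : ℝ) := h4.limUnder_eq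
  have h6 : (s.factorial : ℝ) ≤ L := by
    refine le_trans ?_ h1
    have : (0 : ℝ) ≤ 1 / (2 ^ (2 * (s + 1) + 26) * ((s + 1 : ℕ) : ℝ) ^ 9) := by positivity
    nlinarith
  rw [h5, le_div_iff₀ hf, Nat.factorial_succ]
  push_cast
  refine le_trans (le_of_eq ?_) h6
  field_simp

/-- a lower bound of the costs for fixed `r` -/
theorem cost_lower {r N k : ℕ} (hr : 1 ≤ r) (hk : r < k) (hN : 2 * k ≤ N) :
    (1 / 8 : ℝ) ^ r ≤ cost N k r := by
  -- a system on `2 k` points has more than `k` members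
  have h1 : (k : ℝ) ≤ c r k (2 * k) := by
    obtain ⟨F, ⟨hF1, hF2⟩, hFc⟩ := exists_cov hk.le (2 * k)
    rw [← hFc]
    by_contra hcon
    have hFk : F.card < k := by
      rw [not_le] at hcon
      exact_mod_cast hcon
    have hne : ∀ e ∈ F, e.Nonempty := fun e he => by
      rw [← card_pos, hF1 e he]
      omega
    have : Nonempty (Fin (2 * k)) := ⟨⟨0, by omega⟩⟩
    choose! f hf using hne
    have h2 : k ≤ (univ \ F.image f).card := by
      rw [card_sdiff_of_subset (subset_univ _), card_univ, Fintype.card_fin]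
      have := card_image_le (s := F) (f := f)
      omega
    obtain ⟨S, hS, hSc⟩ := exists_subset_card_eq h2
    obtain ⟨e, he, heS⟩ := hF2 S hSc
    have h3 := hS (heS (hf e he))
    exact (Finset.mem_sdiff.1 h3).2 (mem_image_of_mem f he)
  -- monotonicity of the density
  have h2 : c r k (2 * k) / ((2 * k).choose r : ℝ) ≤ c r k N / (N.choose r : ℝ) := by
    have ha := Pool.Agent.H120R2.Clique.ratio_antitone r k
      (show 2 * k - r ≤ N - r by omega)
    simp only [] at ha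
    rw [show 2 * k - r + r = 2 * k by omega, show N - r + r = N by omega] at ha
    have p1 : (0 : ℝ) < ((2 * k).choose r : ℝ) := by
      exact_mod_cast Nat.choose_pos (by omega : r ≤ 2 * k)
    have p2 : (0 : ℝ) < (N.choose r : ℝ) := by
      exact_mod_cast Nat.choose_pos (by omega : r ≤ N)
    unfold Pool.Agent.H688R3.TuranGen.c
    rw [sub_div, sub_div, div_self p1.ne', div_self p2.ne']
    linarith
  have k0 : (0 : ℝ) < k := by exact_mod_cast (show 0 < k by omega)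
  have k2 : (2 : ℝ) ≤ k := by exact_mod_cast (show 2 ≤ k by omega)
  have N0 : (0 : ℝ) < N := by exact_mod_cast (show 0 < N by omega)
  have hf : (0 : ℝ) < (r.factorial : ℝ) := by exact_mod_cast r.factorial_pos
  have p1 : (0 : ℝ) < ((2 * k).choose r : ℝ) := by
    exact_mod_cast Nat.choose_pos (by omega : r ≤ 2 * k)
  have p2 : (0 : ℝ) < (N.choose r : ℝ) := by
    exact_mod_cast Nat.choose_pos (by omega : r ≤ N)
  have h3 : ((2 * k).choose r : ℝ) ≤ (2 * (k : ℝ)) ^ r / (r.factorial : ℝ) := by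
    have := Nat.choose_le_pow_div (α := ℝ) r (2 * k)
    push_cast at this
    exact this
  have h4 : ((N : ℝ) / 2) ^ r / (r.factorial : ℝ) ≤ (N.choose r : ℝ) := by
    have := Nat.pow_le_choose (α := ℝ) r N
    refine le_trans ?_ this
    refine div_le_div_of_nonneg_right (pow_le_pow_left₀ (by positivity) ?_ _) hf.le
    rw [Nat.cast_sub (by omega)]
    push_cast
    have : (2 : ℝ) * r ≤ N := by exact_mod_cast (show 2 * r ≤ N by omega)
    linarith
  have h5 : (k : ℝ) / ((2 * (k : ℝ)) ^ r / (r.factorial : ℝ)) * (((N : ℝ) / 2) ^ r /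
      (r.factorial : ℝ)) ≤ turanNumber N k r := by
    rw [turanNumber_eq hk.le]
    have a1 : (k : ℝ) / ((2 * (k : ℝ)) ^ r / (r.factorial : ℝ)) ≤ c r k N / (N.choose r : ℝ) := by
      refine le_trans ?_ h2
      exact div_le_div₀ (by linarith) h1 p1 h3
    calc _ ≤ c r k N / (N.choose r : ℝ) * (N.choose r : ℝ) :=
          mul_le_mul a1 h4 (by positivity) (by
            have := Pool.Agent.H688R3.TuranGen.c_nonneg hk.le N
            positivity)
      _ = _ := by field_simp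
  have h6 : (k : ℝ) / 2 ≤ (k : ℝ) - 1 := by linarith
  have h7 : ((k : ℝ) / 2) ^ (r - 1) ≤ ((k : ℝ) - 1) ^ (r - 1) :=
    pow_le_pow_left₀ (by positivity) h6 _
  unfold cost
  rw [le_div_iff₀ (by positivity)]
  have h8 := mul_le_mul h7 h5 (by positivity) (by
    have : (0 : ℝ) ≤ (k : ℝ) - 1 := by linarith
    positivity)
  refine le_trans ?_ h8
  obtain ⟨m, rfl⟩ : ∃ m, r = m + 1 := ⟨r - 1, by omega⟩
  rw [Nat.add_sub_cancel]
  have e : ((k : ℝ) / 2) ^ m * ((k : ℝ) / ((2 * (k : ℝ)) ^ (m + 1) / ((m + 1).factorial : ℝ)) *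
      (((N : ℝ) / 2) ^ (m + 1) / ((m + 1).factorial : ℝ))) =
      2 * ((1 / 8 : ℝ) ^ (m + 1) * (N : ℝ) ^ (m + 1)) := by
    have e8 : (8 : ℝ) = 2 * 2 * 2 := by norm_num
    rw [div_pow, mul_pow, div_pow, one_div_pow, e8, mul_pow, mul_pow, pow_succ (2 : ℝ) m,
      pow_succ (k : ℝ) m]
    field_simp
  rw [e]
  have : (0 : ℝ) ≤ (1 / 8 : ℝ) ^ (m + 1) * (N : ℝ) ^ (m + 1) := by positivity
  linarith

/-- the error term is small for large `r` -/
theorem error_small {B : ℝ} (hB : 0 < B) : ∃ r₀ : ℕ, ∀ r : ℕ, r₀ ≤ r →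
    B * (1 / 2) ^ ((r - 1) / 2) ≤ 1 / (2 * (r : ℝ)) := by
  have h1 := tendsto_self_mul_const_pow_of_lt_one (r := (1 / 2 : ℝ)) (by norm_num) (by norm_num)
  have h2 : ∀ᶠ n : ℕ in atTop, (n : ℝ) * (1 / 2) ^ n < 1 / (8 * B) :=
    (tendsto_order.1 h1).2 _ (by positivity)
  obtain ⟨n0, hn0⟩ := eventually_atTop.1 h2
  refine ⟨2 * n0 + 3, fun r hr => ?_⟩
  set n : ℕ := (r - 1) / 2 with hn
  have h3 := hn0 n (by omega)
  have hr0 : (0 : ℝ) < r := by exact_mod_cast (show 0 < r by omega)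
  have h4 : (r : ℝ) ≤ 4 * n := by exact_mod_cast (show r ≤ 4 * n by omega)
  rw [lt_div_iff₀ (by positivity)] at h3
  rw [le_div_iff₀ (by positivity)]
  have h5 : (0 : ℝ) < (1 / 2 : ℝ) ^ n := by positivity
  have h6 : B * (1 / 2 : ℝ) ^ n * (2 * (r : ℝ)) ≤ B * (1 / 2 : ℝ) ^ n * (2 * (4 * n)) :=
    mul_le_mul_of_nonneg_left (by linarith) (by positivity)
  linarith

/-- the cost of a system with `N ≥ c r (k-1)` points is at least `t_*(r)` up to a factor which does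
not depend on `r` -/
theorem uniform {c : ℝ} (hc : 0 < c) : ∃ K : ℝ, 0 < K ∧ ∀ r : ℕ, 3 ≤ r → ∀ N k : ℕ,
    Admissible c r N k → tStar r ≤ K * cost N k r := by
  have he : (0 : ℝ) < Real.exp 1 := Real.exp_pos 1
  set A : ℝ := Real.exp (Real.exp 1 * 2 / c) with hA
  have hA0 : 0 < A := Real.exp_pos _
  set B : ℝ := A * (1 + 3 * Real.exp 1 * 2 / (2 * c) + Real.exp 1 * 2 / (2 * c ^ 2)) with hB
  have hB0 : 0 < B := by positivity
  obtain ⟨r₀, hr₀⟩ := error_small hB0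
  set M : ℝ := ∑ r ∈ range r₀, |tStar r| * 8 ^ r with hM
  have hM0 : 0 ≤ M := sum_nonneg fun _ _ => by positivity
  refine ⟨2 * A + M, by positivity, fun r hr N k hadm => ?_⟩
  obtain ⟨hk, hN1, hN2⟩ := hadm
  have hcost := cost_nonneg (N := N) (k := k) (r := r) (by omega)
  rcases Nat.lt_or_ge r r₀ with h | h
  · have h1 := cost_lower (by omega : 1 ≤ r) hk hN1
    have h2 : |tStar r| * 8 ^ r ≤ M :=
      single_le_sum (f := fun r => |tStar r| * 8 ^ r) (fun _ _ => by positivity)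
        (mem_range.2 h)
    calc tStar r ≤ |tStar r| := le_abs_self _
      _ = |tStar r| * 8 ^ r * (1 / 8 : ℝ) ^ r := by
          rw [mul_assoc, ← mul_pow]
          norm_num
      _ ≤ M * cost N k r := mul_le_mul h2 h1 (by positivity) hM0
      _ ≤ _ := mul_le_mul_of_nonneg_right (by linarith) hcost
  · have h1 := bound hr hc (κ := 2) (by norm_num) hk hN2
    have h2 := hr₀ r h
    have h3 := one_div_le_tStar hr
    have r1 : (1 : ℝ) ≤ r := by exact_mod_cast (show 1 ≤ r by omega)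
    have a1 : 3 * Real.exp 1 * 2 / (2 * c * r) ≤ 3 * Real.exp 1 * 2 / (2 * c) :=
      div_le_div_of_nonneg_left (by positivity) (by positivity)
        (le_mul_of_one_le_right (by positivity) r1)
    have a2 : Real.exp 1 * 2 / (2 * c ^ 2 * r ^ 2) ≤ Real.exp 1 * 2 / (2 * c ^ 2) :=
      div_le_div_of_nonneg_left (by positivity) (by positivity)
        (le_mul_of_one_le_right (by positivity) (one_le_pow₀ r1))
    have a3 : A * ((1 / 2 : ℝ) ^ ((r - 1) / 2) * (1 + 3 * Real.exp 1 * 2 / (2 * c * r) +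
        Real.exp 1 * 2 / (2 * c ^ 2 * r ^ 2))) ≤ B * (1 / 2) ^ ((r - 1) / 2) := by
      rw [hB]
      have a4 : (0 : ℝ) ≤ (1 / 2 : ℝ) ^ ((r - 1) / 2) := by positivity
      have a5 := mul_le_mul_of_nonneg_left (show (1 + 3 * Real.exp 1 * 2 / (2 * c * r) +
        Real.exp 1 * 2 / (2 * c ^ 2 * r ^ 2)) ≤ (1 + 3 * Real.exp 1 * 2 / (2 * c) +
          Real.exp 1 * 2 / (2 * c ^ 2)) by linarith) (mul_nonneg hA0.le a4)
      refine le_trans (le_of_eq ?_) (a5.trans (le_of_eq ?_)) <;> ring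
    rw [mul_add] at h1
    have h4 : 1 / (2 * (r : ℝ)) = 1 / r / 2 := by field_simp
    have h5 : tStar r ≤ 2 * (A * cost N k r) := by linarith
    refine h5.trans ?_
    rw [← mul_assoc]
    exact mul_le_mul_of_nonneg_right (by linarith) hcost

/-- the step inequality -/
theorem step {r : ℕ} (hr : 3 ≤ r) :
    tStar (r + 1) ≤ (r : ℝ) ^ r / (((r : ℝ) - 1) ^ (r - 1) * ((r : ℝ) + 1)) * tStar r := by
  obtain ⟨s, rfl⟩ : ∃ s, r = s + 1 := ⟨r - 1, by omega⟩
  have hs0 : (0 : ℝ) < s := by exact_mod_cast (show 0 < s by omega)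
  have hf : (0 : ℝ) < ((s + 1).factorial : ℝ) := by exact_mod_cast (s + 1).factorial_pos
  have h1 : Tendsto (fun k : ℕ => ((k : ℝ) - 1) ^ s * Pool.Agent.H688R3.TuranGen.t (s + 1) k) atTop
      (𝓝 (((s + 1).factorial : ℝ) * tStar (s + 1))) := by
    refine ((exists_tStar hr).1.const_mul ((s + 1).factorial : ℝ)).congr' ?_
    filter_upwards [eventually_ge_atTop (s + 1)] with k hk
    unfold rescaled
    rw [turanDensity_eq hk, Nat.add_sub_cancel]
    field_simp
  have h2 := Pool.Agent.H69.ColO.Step.limit_step (s := s) (by omega) h1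
    (fun k hk => fac_tStar_le (r := s + 2) (by omega) k hk)
  have e1 : (((s + 2).factorial : ℕ) : ℝ) = ((s : ℝ) + 2) * ((s + 1).factorial : ℝ) := by
    rw [show s + 2 = (s + 1) + 1 by rfl, Nat.factorial_succ]
    push_cast
    ring
  rw [e1] at h2
  have h3 : ((s + 1).factorial : ℝ) * (((s : ℝ) + 2) * tStar (s + 2)) ≤
      ((s + 1).factorial : ℝ) * (((s : ℝ) + 1) ^ (s + 1) / (s : ℝ) ^ s * tStar (s + 1)) := by
    refine le_trans (le_of_eq ?_) (h2.trans (le_of_eq ?_)) <;> ring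
  have h4 := le_of_mul_le_mul_left h3 hf
  have e2 : ((s + 1 : ℕ) : ℝ) - 1 = s := by push_cast; ring
  rw [e2, Nat.add_sub_cancel]
  push_cast
  have h5 : tStar (s + 2) ≤ ((s : ℝ) + 1) ^ (s + 1) / (s : ℝ) ^ s * tStar (s + 1) / (s + 2) := by
    rw [le_div_iff₀ (by positivity), mul_comm]
    exact h4
  refine h5.trans (le_of_eq ?_)
  have : (s : ℝ) + 1 + 1 = s + 2 := by ring
  rw [this]
  field_simp

theorem step_factor {r : ℕ} (hr : 2 ≤ r) :
    (r : ℝ) ^ r / (((r : ℝ) - 1) ^ (r - 1) * ((r : ℝ) + 1)) < Real.exp 1 := by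
  obtain ⟨s, rfl⟩ : ∃ s, r = s + 1 := ⟨r - 1, by omega⟩
  have hs0 : (0 : ℝ) < s := by exact_mod_cast (show 0 < s by omega)
  have e2 : ((s + 1 : ℕ) : ℝ) - 1 = s := by push_cast; ring
  rw [e2, Nat.add_sub_cancel]
  push_cast
  have h1 : (1 + 1 / (s : ℝ)) ^ s ≤ Real.exp 1 := by
    refine pow_le hs0 ?_
    rw [div_self hs0.ne']
  have h2 : ((s : ℝ) + 1) ^ (s + 1) / ((s : ℝ) ^ s * ((s : ℝ) + 1 + 1)) =
      (1 + 1 / (s : ℝ)) ^ s * (((s : ℝ) + 1) / ((s : ℝ) + 1 + 1)) := by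
    have h3 : 1 + 1 / (s : ℝ) = ((s : ℝ) + 1) / s := by
      field_simp
    rw [h3, div_pow, pow_succ]
    field_simp
  rw [h2]
  have h4 : ((s : ℝ) + 1) / ((s : ℝ) + 1 + 1) < 1 := by
    rw [div_lt_one (by positivity)]
    linarith
  have h5 : (0 : ℝ) < (1 + 1 / (s : ℝ)) ^ s := by positivity
  calc (1 + 1 / (s : ℝ)) ^ s * (((s : ℝ) + 1) / ((s : ℝ) + 1 + 1)) < (1 + 1 / (s : ℝ)) ^ s * 1 :=
        mul_lt_mul_of_pos_left h4 h5
    _ ≤ _ := by rw [mul_one]; exact h1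

theorem tStar_pos {r : ℕ} (hr : 3 ≤ r) : 0 < tStar r := by
  refine lt_of_lt_of_le ?_ (one_div_le_tStar hr)
  have : (0 : ℝ) < r := by exact_mod_cast (show 0 < r by omega)
  positivity

theorem steps {r : ℕ} (hr : 3 ≤ r) (j : ℕ) : tStar (r + j) ≤ Real.exp j * tStar r := by
  induction j with
  | zero => simp
  | succ j ih =>
    have h1 := step (r := r + j) (by omega)
    have h2 := step_factor (r := r + j) (by omega)
    have h3 := tStar_pos (r := r + j) (by omega)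
    have h4 : tStar (r + j + 1) ≤ Real.exp 1 * tStar (r + j) :=
      h1.trans (mul_le_mul_of_nonneg_right h2.le h3.le)
    calc tStar (r + (j + 1)) = tStar (r + j + 1) := rfl
      _ ≤ Real.exp 1 * tStar (r + j) := h4
      _ ≤ Real.exp 1 * (Real.exp j * tStar r) :=
          mul_le_mul_of_nonneg_left ih (Real.exp_pos 1).le
      _ = Real.exp ((j + 1 : ℕ) : ℝ) * tStar r := by
          rw [← mul_assoc, ← Real.exp_add]
          push_cast
          rw [add_comm]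

/-- boundedness on a set with bounded gaps is enough -/
theorem gaps {R : Set ℕ} {d : ℕ} (hR : ∀ n : ℕ, ∃ r ∈ R, n ≤ r ∧ r ≤ n + d) {C : ℝ}
    (hC : ∀ r ∈ R, 3 ≤ r → tStar r ≤ C) : ∃ C' : ℝ, ∀ r : ℕ, 2 ≤ r → tStar r ≤ C' := by
  have hC0 : 0 ≤ C := by
    obtain ⟨r, h1, h2, -⟩ := hR 3
    exact (tStar_pos h2).le.trans (hC r h1 h2)
  set M : ℝ := ∑ r ∈ range (d + 3), |tStar r| with hM
  have hM0 : 0 ≤ M := sum_nonneg fun _ _ => abs_nonneg _
  refine ⟨M + Real.exp d * C, fun r hr => ?_⟩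
  rcases Nat.lt_or_ge r (d + 3) with h | h
  · have h1 : |tStar r| ≤ M :=
      single_le_sum (f := fun r => |tStar r|) (fun _ _ => abs_nonneg _) (mem_range.2 h)
    have h2 : 0 ≤ Real.exp d * C := mul_nonneg (Real.exp_pos _).le hC0
    linarith [le_abs_self (tStar r)]
  · obtain ⟨r', h1, h2, h3⟩ := hR (r - d)
    obtain ⟨j, rfl⟩ : ∃ j, r = r' + j := ⟨r - r', by omega⟩
    have h4 := steps (r := r') (by omega) j
    have h5 : Real.exp j ≤ Real.exp d := Real.exp_le_exp.2 (by exact_mod_cast (by omega : j ≤ d))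
    have h6 := hC r' h1 (by omega)
    have h7 : Real.exp j * tStar r' ≤ Real.exp d * C :=
      mul_le_mul h5 h6 (tStar_pos (by omega)).le (Real.exp_pos _).le
    linarith

/-- systems of cost at most `t_*(r) + ε` -/
theorem exists_admissible (c : ℝ) {r : ℕ} (hr : 3 ≤ r) {ε : ℝ} (hε : 0 < ε) :
    ∃ N k : ℕ, Admissible c r N k ∧ cost N k r ≤ tStar r + ε := by
  have h1 := (exists_tStar hr).1
  have h2 : ∀ᶠ k : ℕ in atTop, rescaled k r < tStar r + ε / 2 :=
    (tendsto_order.1 h1).2 _ (by linarith)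
  obtain ⟨k, hk1, hk2⟩ := (h2.and (eventually_gt_atTop r)).exists
  have hf : (0 : ℝ) < (r.factorial : ℝ) := by exact_mod_cast r.factorial_pos
  have hk0 : (0 : ℝ) ≤ (k : ℝ) - 1 := by
    have : (1 : ℝ) ≤ k := by exact_mod_cast (show 1 ≤ k by omega)
    linarith
  have h3 : Tendsto (fun n : ℕ => ((k : ℝ) - 1) ^ (r - 1) / (r.factorial : ℝ) *
      ((turanNumber n k r : ℝ) / (n.choose r : ℝ))) atTop (𝓝 (rescaled k r)) := by
    unfold rescaled
    rw [turanDensity_eq hk2.le]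
    exact (tendsto_turanNumber hk2.le).const_mul _
  have h4 : ∀ᶠ n : ℕ in atTop, ((k : ℝ) - 1) ^ (r - 1) / (r.factorial : ℝ) *
      ((turanNumber n k r : ℝ) / (n.choose r : ℝ)) < tStar r + ε :=
    (tendsto_order.1 h3).2 _ (by linarith)
  have h5 : ∀ᶠ n : ℕ in atTop, c * (r : ℝ) * ((k : ℝ) - 1) ≤ n :=
    tendsto_natCast_atTop_atTop.eventually_ge_atTop _
  obtain ⟨N, hN1, hN2, hN3⟩ := (h4.and (h5.and (eventually_ge_atTop (2 * k)))).exists
  refine ⟨N, k, ⟨hk2, hN3, hN2⟩, le_trans ?_ hN1.le⟩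
  unfold cost
  have hch : (0 : ℝ) < (N.choose r : ℝ) := by
    exact_mod_cast Nat.choose_pos (by omega : r ≤ N)
  have h6 : (r.factorial : ℝ) * (N.choose r : ℝ) ≤ (N : ℝ) ^ r := by
    have := Nat.descFactorial_le_pow N r
    rw [Nat.descFactorial_eq_factorial_mul_choose] at this
    exact_mod_cast this
  calc ((k : ℝ) - 1) ^ (r - 1) * (turanNumber N k r : ℝ) / (N : ℝ) ^ r
      ≤ ((k : ℝ) - 1) ^ (r - 1) * (turanNumber N k r : ℝ) /
          ((r.factorial : ℝ) * (N.choose r : ℝ)) :=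
        div_le_div_of_nonneg_left (by positivity) (by positivity) h6
    _ = _ := by field_simp

theorem minCost_le (c : ℝ) {r : ℕ} (hr : 3 ≤ r) : minCost c r ≤ tStar r := by
  refine le_of_forall_pos_le_add fun ε hε => ?_
  obtain ⟨N, k, h1, h2⟩ := exists_admissible c hr hε
  refine le_trans (csInf_le ⟨0, ?_⟩ ⟨N, k, h1, rfl⟩) h2
  rintro x ⟨N', k', h3, rfl⟩
  exact cost_nonneg (by have := h3.1; omega)

theorem le_minCost {c K : ℝ} (hK : 0 < K) {r : ℕ} (hr : 3 ≤ r)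
    (h : ∀ N k : ℕ, Admissible c r N k → tStar r ≤ K * cost N k r) :
    tStar r ≤ K * minCost c r := by
  have h1 : tStar r / K ≤ minCost c r := by
    refine le_csInf ?_ ?_
    · obtain ⟨N, k, h1, -⟩ := exists_admissible c hr one_pos
      exact ⟨_, N, k, h1, rfl⟩
    · rintro x ⟨N, k, h2, rfl⟩
      rw [div_le_iff₀ hK, mul_comm]
      exact h N k h2
  rwa [div_le_iff₀ hK, mul_comm] at h1

/-- systems on `l (k-1)` points -/
theorem greedy {r : ℕ} (hr : 1 ≤ r) {l : ℕ} (hl : 2 ≤ l) {ε : ℝ} (hε : 0 < ε) :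
    ∃ K : ℕ, ∀ k : ℕ, K ≤ k → cost (l * (k - 1)) k r ≤ 1 + Real.log l + ε := by
  have hl0 : (0 : ℝ) < l := by exact_mod_cast (show 0 < l by omega)
  have hlim := Pool.Agent.Q235.TU.G_tendsto one_pos hl0 one_pos r r
  have e1 : Real.log (Real.exp 1 * ((l : ℝ) * 1) / 1) = 1 + Real.log l := by
    rw [mul_one, div_one, Real.log_mul (Real.exp_pos 1).ne' hl0.ne', Real.log_exp]
  have e2 : (1 : ℝ) ^ (r - 1) / ((l : ℝ) * 1) ^ r * (((l : ℝ) * 1 / 1) ^ r *
      (1 * Real.log (Real.exp 1 * ((l : ℝ) * 1) / 1))) = 1 + Real.log l := by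
    rw [e1, one_pow, mul_one, div_one, one_mul]
    field_simp
  rw [e2] at hlim
  have h1 : ∀ᶠ a : ℕ in atTop, Pool.Agent.Q235.TU.G 1 l 1 r r (1 / (a : ℝ)) <
      1 + Real.log l + ε := (tendsto_order.1 hlim).2 _ (by linarith)
  obtain ⟨K, hK⟩ := eventually_atTop.1 (h1.and (eventually_gt_atTop r))
  refine ⟨K + 1, fun k hk => ?_⟩
  obtain ⟨a, rfl⟩ : ∃ a, k = a + 1 := ⟨k - 1, by omega⟩
  obtain ⟨h2, h3⟩ := hK a (by omega)
  obtain ⟨R, hR1, hR2, hR3⟩ := Pool.Agent.Q235.TU.cost (A := 1) (L := l) (b0 := 1)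
      (r := r) (h := r) (a := a) le_rfl hl le_rfl le_rfl le_rfl hr h3
  have hNe : l * 1 * a = l * (a + 1 - 1) := by rw [mul_one, Nat.add_sub_cancel]
  have ha0 : (0 : ℝ) < a := by exact_mod_cast (show 0 < a by omega)
  have hcov : Covers (a + 1) r R := ⟨hR1, fun Y hY => hR2 Y (by omega)⟩
  have h4 : cost (l * 1 * a) (a + 1) r ≤ 1 + Real.log l + ε := by
    have h5 : (turanNumber (l * 1 * a) (a + 1) r : ℝ) ≤ R.card := by
      exact_mod_cast turanNumber_le hcov
    have hle2 : r ≤ l * 1 * a := by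
      have : 1 * a ≤ l * a := Nat.mul_le_mul_right _ (by omega)
      have e : l * 1 * a = l * a := by ring
      omega
    have hd : (((l * 1 * a).descFactorial r : ℕ) : ℝ) ≤ ((l * 1 * a : ℕ) : ℝ) ^ r := by
      exact_mod_cast Nat.descFactorial_le_pow (l * 1 * a) r
    have hd0 : (0 : ℝ) < (((l * 1 * a).descFactorial r : ℕ) : ℝ) := by
      have : 0 < (l * 1 * a).descFactorial r := Nat.pos_of_ne_zero (by
        rw [Ne, Nat.descFactorial_eq_zero_iff_lt]
        omega)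
      exact_mod_cast this
    unfold cost
    have e3 : (((a + 1 : ℕ) : ℝ) - 1) = a := by push_cast; ring
    rw [e3]
    have h6 : (a : ℝ) ^ (r - 1) * (turanNumber (l * 1 * a) (a + 1) r : ℝ) /
        ((l * 1 * a : ℕ) : ℝ) ^ r ≤ (a : ℝ) ^ (r - 1) * (R.card : ℝ) /
          (((l * 1 * a).descFactorial r : ℕ) : ℝ) :=
      div_le_div₀ (by positivity) (mul_le_mul_of_nonneg_left h5 (by positivity)) hd0 hd
    have h7 : Pool.Agent.Q235.TU.G ((1 : ℕ) : ℝ) (l : ℝ) ((1 : ℕ) : ℝ) r r (1 / (a : ℝ)) ≤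
        1 + Real.log l + ε := by
      rw [Nat.cast_one]
      exact h2.le
    refine h6.trans (le_trans (le_of_eq ?_) (hR3.trans h7))
    push_cast
    rw [one_mul]
    ring
  rw [hNe] at h4
  exact h4

/-- **The growth of `t_*(r)` and finite systems.** (1) The limits `t(k,r)` and `t_*(r)` exist, and
`t_*(r) ≤ t_*(k,r)`. (2) For all `r ≥ 3`, `c > 0`, `κ ≥ 1` and all `k > r`, `N ≥ c r (k-1)`:
`t_*(r) ≤ e^(eκ/c) (cost N k r + κ^(-⌊(r-1)/2⌋) (1 + 3eκ/(2cr) + eκ/(2c²r²)))`. (3) For every `c > 0`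
there is `K` such that for all `r ≥ 3` the infimum `minCost c r` of the costs of the systems with
`N ≥ 2k` and `N ≥ c r (k-1)` satisfies `minCost c r ≤ t_*(r) ≤ K minCost c r`. (4) For `r ≥ 3`:
`t_*(r+1) ≤ r^r / ((r-1)^(r-1) (r+1)) t_*(r) < e t_*(r)`. (5) For every `c > 0` and every set `R` of
integers with bounded gaps the sequence `t_*(r)`, `r ≥ 2`, is bounded if and only if for all
`r ∈ R` there are systems as in (3) of bounded cost. (6) For `r ≥ 1`, `l ≥ 2` and `ε > 0` all large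
`k` satisfy `cost (l (k-1)) k r ≤ 1 + ln l + ε`. -/
theorem result :
    ((∀ k r : ℕ, r ≤ k → Tendsto (fun n : ℕ => (turanNumber n k r : ℝ) / (n.choose r : ℝ)) atTop
        (𝓝 (turanDensity k r))) ∧
      ∀ r : ℕ, 3 ≤ r → Tendsto (fun k : ℕ => rescaled k r) atTop (𝓝 (tStar r)) ∧
        ∀ k : ℕ, r ≤ k → tStar r ≤ rescaled k r) ∧
    (∀ (r : ℕ) (c κ : ℝ) (N k : ℕ), 3 ≤ r → 0 < c → 1 ≤ κ → r < k →
      c * (r : ℝ) * ((k : ℝ) - 1) ≤ N →
      tStar r ≤ Real.exp (Real.exp 1 * κ / c) * (cost N k r + (1 / κ) ^ ((r - 1) / 2) *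
        (1 + 3 * Real.exp 1 * κ / (2 * c * r) + Real.exp 1 * κ / (2 * c ^ 2 * r ^ 2)))) ∧
    (∀ c : ℝ, 0 < c → ∃ K : ℝ, 0 < K ∧ ∀ r : ℕ, 3 ≤ r →
      (∀ N k : ℕ, Admissible c r N k → tStar r ≤ K * cost N k r) ∧
      minCost c r ≤ tStar r ∧ tStar r ≤ K * minCost c r) ∧
    (∀ r : ℕ, 3 ≤ r →
      tStar (r + 1) ≤ (r : ℝ) ^ r / (((r : ℝ) - 1) ^ (r - 1) * ((r : ℝ) + 1)) * tStar r ∧
      tStar (r + 1) < Real.exp 1 * tStar r) ∧
    (∀ c : ℝ, 0 < c → ∀ R : Set ℕ, (∃ d : ℕ, ∀ n : ℕ, ∃ r ∈ R, n ≤ r ∧ r ≤ n + d) →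
      ((∃ C : ℝ, ∀ r : ℕ, 2 ≤ r → tStar r ≤ C) ↔
        ∃ C : ℝ, ∀ r ∈ R, 3 ≤ r → ∃ N k : ℕ, Admissible c r N k ∧ cost N k r ≤ C)) ∧
    ∀ (r l : ℕ) (ε : ℝ), 1 ≤ r → 2 ≤ l → 0 < ε →
      ∃ K : ℕ, ∀ k : ℕ, K ≤ k → cost (l * (k - 1)) k r ≤ 1 + Real.log l + ε := by
  refine ⟨⟨fun k r hk => ?_, fun r hr => exists_tStar hr⟩, fun r c κ N k hr hc hκ hk hN =>
    bound hr hc hκ hk hN, fun c hc => ?_, fun r hr => ⟨step hr, (step hr).trans_lt
      (mul_lt_mul_of_pos_right (step_factor (by omega)) (tStar_pos hr))⟩, fun c hc R hR => ⟨?_, ?_⟩,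
    fun r l ε hr hl hε => greedy hr hl hε⟩
  · rw [turanDensity_eq hk]
    exact tendsto_turanNumber hk
  · obtain ⟨K, hK, h⟩ := uniform hc
    exact ⟨K, hK, fun r hr => ⟨h r hr, minCost_le c hr, le_minCost hK hr (h r hr)⟩⟩
  · rintro ⟨C, hC⟩
    refine ⟨C + 1, fun r _ hr => ?_⟩
    obtain ⟨N, k, h1, h2⟩ := exists_admissible c hr one_pos
    exact ⟨N, k, h1, by linarith [hC r (by omega)]⟩
  · rintro ⟨C, hC⟩
    obtain ⟨K, hK, h⟩ := uniform hc
    obtain ⟨d, hd⟩ := hR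
    refine gaps hd (C := K * C) fun r hrR hr => ?_
    obtain ⟨N, k, h1, h2⟩ := hC r hrR hr
    exact (h r hr N k h1).trans (mul_le_mul_of_nonneg_left h2 hK.le)

end Pool.Agent.Results.MP_ea5d3c_co.FiniteCriterion
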